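import Pool.Agent.H27.F14.A7

/-! # Parts A4, A5 : edge cuts of size 1 and 2 -/

set_option autoImplicit false
set_option linter.unusedSectionVars false
set_option linter.unusedVariables false

noncomputable section

open Classical

namespace Pool.Agent.H27.F14

open Pool.Agent.H32.F14

section
variable {V D : Type} [Fintype V] [Fintype D]

theorem mem_bdry_compl (G : DG V D) (K : Finset V) (x : D) :
    x ∈ G.bdry Kᶜ ↔ G.inv x ∈ G.bdry K := by
  rw [mem_bdry, mem_bdry, G.inv_inv]
  simp only [Finset.mem_compl, not_not]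
  tauto

theorem bdry_compl_card (G : DG V D) (K : Finset V) :
    (G.bdry Kᶜ).card = (G.bdry K).card := by
  apply Finset.card_bij (fun x _ => G.inv x)
  · intro x hx
    exact (mem_bdry_compl G K x).1 hx
  · intro x hx y hy hxy
    rw [← G.inv_inv x, ← G.inv_inv y, hxy]
  · intro y hy
    refine ⟨G.inv y, ?_, G.inv_inv y⟩
    rw [mem_bdry_compl, G.inv_inv]
    exact hy

/-- glue after a flip, if both labellings are constant on the boundary -/
theorem glue_flip (G : DG V D) (hG : MinCex G) (K : Finset V) (f g : D → Bool)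
    (hf : G.ValidOn Kᶜ f) (hg : G.ValidOn K g) (h : (∀ b ∈ G.bdry K, g b = f b) ∨
      (∀ b ∈ G.bdry K, g b = !(f b))) : False := by
  apply hG.nosol
  rcases h with h | h
  · exact glue V D G K g f hg hf h
  · refine glue V D G K (fun d => !(g d)) f (validOn_not G K g hg) hf ?_
    intro b hb
    show (!(g b)) = f b
    rw [h b hb]
    simp

theorem gadget1 (G : DG V D) (hG : MinCex G) (K : Finset V) (hb : (G.bdry K).card = 1)
    (hK : 1 < (G.dartsOn K).card) : ∃ f : D → Bool, G.ValidOn Kᶜ f := by
  obtain ⟨b, hb⟩ := Finset.card_eq_one.1 hb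
  have hbm : b ∈ G.bdry K := by rw [hb]; simp
  let π : ({b // b ∈ G.bdry K} ⊕ Fin 1) → ({b // b ∈ G.bdry K} ⊕ Fin 1) := fun x =>
    match x with
    | Sum.inl _ => Sum.inr 0
    | Sum.inr _ => Sum.inl ⟨b, hbm⟩
  obtain ⟨f, g, hf, _, _⟩ := gadget V D G hG K (Fin 1) (Fin 1) (fun x => x)
    (fun w => by
      left
      rw [Finset.card_eq_one]
      refine ⟨w, ?_⟩
      ext x
      simp only [Finset.mem_filter, Finset.mem_univ, true_and, Finset.mem_singleton]) (by simpa using hK) π
    (by
      intro x
      cases x with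
      | inl c =>
        simp only [π]
        congr 1
        apply Subtype.ext
        have h9 : (c : D) ∈ ({b} : Finset D) := hb ▸ c.2
        exact (Finset.mem_singleton.1 h9).symm
      | inr w =>
        simp only [π]
        congr 1
        exact Subsingleton.elim _ _)
    (by
      intro x
      cases x with
      | inl c => simp [π]
      | inr w => simp [π])
  exact ⟨f, hf⟩

theorem deg_pos (G : DG V D) (hG : MinCex G) (v : V) : ∃ d, G.att d = v := by
  have h := hG.deg135 v
  have : 0 < G.deg v := by omega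
  obtain ⟨d, hd⟩ := Finset.card_pos.1 this
  exact ⟨d, (mem_darts G v d).1 hd⟩

/-- a set of vertices has at least as many darts as vertices -/
theorem card_le_dartsOn (G : DG V D) (hG : MinCex G) (K : Finset V) :
    K.card ≤ (G.dartsOn K).card := by
  choose c hc using deg_pos G hG
  have : (K.image c).card = K.card := by
    apply Finset.card_image_of_injective
    intro x y hxy
    rw [← hc x, ← hc y, hxy]
  rw [← this]
  apply Finset.card_le_card
  intro d hd
  obtain ⟨v, hv, rfl⟩ := Finset.mem_image.1 hd
  simp [DG.dartsOn, hc, hv]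

end

/-- A4 : edge cuts of size 1 isolate a leaf. -/
theorem a4 : StmtA4 := by
  intro V D _ _ G hG K hb
  by_contra hcon
  rw [not_or] at hcon
  obtain ⟨b, hb'⟩ := Finset.card_eq_one.1 hb
  have hbm : b ∈ G.bdry K := by rw [hb']; simp
  have hbm2 := (mem_bdry G K b).1 hbm
  have hK1 : 0 < K.card := Finset.card_pos.2 ⟨_, hbm2.1⟩
  have hK2 : 0 < Kᶜ.card := Finset.card_pos.2 ⟨_, by simpa using hbm2.2⟩
  have h1 := card_le_dartsOn G hG K
  have h2 := card_le_dartsOn G hG Kᶜ
  obtain ⟨f, hf⟩ := gadget1 G hG K hb (by omega)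
  obtain ⟨g, hg⟩ := gadget1 G hG Kᶜ (by rw [bdry_compl_card]; exact hb) (by omega)
  rw [compl_compl] at hg
  apply glue_flip G hG K f g hf hg
  by_cases h : g b = f b
  · left
    intro x hx
    rw [hb'] at hx
    rw [Finset.mem_singleton.1 hx]
    exact h
  · right
    intro x hx
    rw [hb'] at hx
    rw [Finset.mem_singleton.1 hx]
    cases h1 : g b <;> cases h2 : f b <;> simp_all

/-- A5 : no edge cuts of size 2. -/
theorem a5 : StmtA5 := by
  intro V D _ _ G hG K hb
  obtain ⟨a, b, hab, hb'⟩ := Finset.card_eq_two.1 hb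
  have key : ∀ (K : Finset V) (a b : D), a ≠ b → G.bdry K = {a, b} →
      ∃ f : D → Bool, G.ValidOn Kᶜ f ∧ f a = f b := by
    intro K a b hab hb'
    have ham : a ∈ G.bdry K := by rw [hb']; simp
    have ha2 := (mem_bdry G K a).1 ham
    obtain ⟨f, hf, hfτ⟩ := gadget0 G hG K (Finset.card_pos.2 ⟨a, by simp [DG.dartsOn, ha2.1]⟩)
      (fun x => if x = a then b else a) (by
        intro x hx
        rw [hb'] at hx ⊢
        simp only [Finset.mem_insert, Finset.mem_singleton] at hx ⊢
        rcases hx with rfl | rfl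
        · simp [hab.symm]
        · simp [hab, hab.symm])
    refine ⟨f, hf, ?_⟩
    have := hfτ a ham
    simpa using this.symm
  obtain ⟨f, hf, hfab⟩ := key K a b hab hb'
  have hb2 : G.bdry Kᶜ = {G.inv a, G.inv b} := by
    ext x
    rw [mem_bdry_compl, hb']
    simp only [Finset.mem_insert, Finset.mem_singleton]
    constructor
    · rintro (h | h)
      · left; rw [← h, G.inv_inv]
      · right; rw [← h, G.inv_inv]
    · rintro (h | h)
      · left; rw [h, G.inv_inv]
      · right; rw [h, G.inv_inv]
  obtain ⟨g, hg, hgab⟩ := key Kᶜ (G.inv a) (G.inv b) (by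
    intro h
    apply hab
    rw [← G.inv_inv a, ← G.inv_inv b, h]) hb2
  rw [compl_compl] at hg
  have hbd : ∀ x ∈ G.bdry K, G.att x ∈ K := fun x hx => ((mem_bdry G K x).1 hx).1
  have ham : a ∈ G.bdry K := by rw [hb']; simp
  have hbm : b ∈ G.bdry K := by rw [hb']; simp
  have hga := hg.1 a (hbd a ham)
  have hgb := hg.1 b (hbd b hbm)
  have hgg : g a = g b := by rw [← hga, ← hgb, hgab]
  apply glue_flip G hG K f g hf hg
  by_cases h : g a = f a
  · left
    intro x hx
    rw [hb'] at hx
    simp only [Finset.mem_insert, Finset.mem_singleton] at hx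
    rcases hx with rfl | rfl
    · exact h
    · rw [← hgg, h, hfab]
  · right
    have h' : g a = !(f a) := by
      cases h1 : g a <;> cases h2 : f a <;> simp_all
    intro x hx
    rw [hb'] at hx
    simp only [Finset.mem_insert, Finset.mem_singleton] at hx
    rcases hx with rfl | rfl
    · exact h'
    · rw [← hgg, h', hfab]

end Pool.Agent.H27.F14
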