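import Pool.Agent.H32.F14.Base

/-! # Part A7 : a minimal counterexample has no parallel edges (only A3 is needed) -/

set_option autoImplicit false
set_option linter.unusedSectionVars false
set_option linter.unusedVariables false

noncomputable section

open Classical

namespace Pool.Agent.H27.F14

open Pool.Agent.H32.F14

section
variable {V D : Type} [Fintype V] [Fintype D]

/-- The gadget lemma without new vertices: the boundary darts are paired by `τ`. -/
theorem gadget0 (G : DG V D) (hG : MinCex G) (K : Finset V) (hK : 0 < (G.dartsOn K).card)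
    (τ : D → D) (h : ∀ b ∈ G.bdry K, τ b ∈ G.bdry K ∧ τ (τ b) = b ∧ τ b ≠ b) :
    ∃ f : D → Bool, G.ValidOn Kᶜ f ∧ ∀ b ∈ G.bdry K, f (τ b) = f b := by
  let π : ({b // b ∈ G.bdry K} ⊕ Fin 0) → ({b // b ∈ G.bdry K} ⊕ Fin 0) := fun x =>
    match x with
    | Sum.inl b => Sum.inl ⟨τ b.1, (h b.1 b.2).1⟩
    | Sum.inr w => Sum.inr w
  obtain ⟨f, g, hf, _, hfg⟩ := gadget V D G hG K (Fin 0) (Fin 0) (fun x => x)
    (fun w => w.elim0) (by simpa using hK) π
    (by
      intro x
      cases x with
      | inl b =>
        simp only [π]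
        congr 1
        apply Subtype.ext
        exact (h b.1 b.2).2.1
      | inr w => exact w.elim0)
    (by
      intro x
      cases x with
      | inl b =>
        simp only [π, ne_eq, Sum.inl.injEq]
        intro hh
        exact (h b.1 b.2).2.2 (congrArg Subtype.val hh)
      | inr w => exact w.elim0)
  refine ⟨f, hf, ?_⟩
  intro b hb
  have := hfg (Sum.inl ⟨b, hb⟩)
  simpa [π] using this

/-- a pairing of two disjoint finite sets of the same size -/
theorem exists_tau (A B : Finset D) (hAB : Disjoint A B) (hc : A.card = B.card) :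
    ∃ τ : D → D, (∀ x ∈ A, τ x ∈ B ∧ τ (τ x) = x) ∧ (∀ x ∈ B, τ x ∈ A ∧ τ (τ x) = x) := by
  let e := Finset.equivOfCardEq hc
  refine ⟨fun x => if h : x ∈ A then (e ⟨x, h⟩ : D) else if h : x ∈ B then (e.symm ⟨x, h⟩ : D)
    else x, ?_, ?_⟩
  · intro x hx
    have h1 : ((e ⟨x, hx⟩ : {y // y ∈ B}) : D) ∈ B := (e ⟨x, hx⟩).2
    have h2 : ((e ⟨x, hx⟩ : {y // y ∈ B}) : D) ∉ A := fun h => (Finset.disjoint_left.1 hAB) h h1
    refine ⟨by simpa [hx] using h1, ?_⟩
    simp only [hx, dif_pos, h2, dif_neg, not_false_eq_true, h1]
    simp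
  · intro x hx
    have h0 : x ∉ A := fun h => (Finset.disjoint_left.1 hAB) h hx
    have h1 : ((e.symm ⟨x, hx⟩ : {y // y ∈ A}) : D) ∈ A := (e.symm ⟨x, hx⟩).2
    refine ⟨by simpa [h0, hx] using h1, ?_⟩
    simp only [h0, hx, dif_pos, dif_neg, not_false_eq_true, h1]
    simp

theorem a7_finish (G : DG V D) (hG : MinCex G) (hloop : ∀ d, G.att (G.inv d) ≠ G.att d) (d : D)
    (f : D → Bool) (hf : G.ValidOn ({G.att d, G.att (G.inv d)} : Finset V)ᶜ f) (ε : Bool)
    (hc : ((((G.darts (G.att d)).filter (fun x => G.att (G.inv x) ≠ G.att (G.inv d))).filter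
        (fun x => f x = ε)).card = 0 ∧
      (((G.darts (G.att (G.inv d))).filter (fun x => G.att (G.inv x) ≠ G.att d)).filter
        (fun x => f x = ε)).card = 0) ∨
      ((((G.darts (G.att d)).filter (fun x => G.att (G.inv x) ≠ G.att (G.inv d))).filter
        (fun x => f x = ε)).card = 1 ∧
      (((G.darts (G.att (G.inv d))).filter (fun x => G.att (G.inv x) ≠ G.att d)).filter
        (fun x => f x = ε)).card = 1)) : False := by
  have huv := hloop d
  have hbu : ∀ x, G.att x = G.att d → (x ∈ G.bdry ({G.att d, G.att (G.inv d)} : Finset V) ↔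
      G.att (G.inv x) ≠ G.att (G.inv d)) := by
    intro x hx
    rw [mem_bdry, hx]
    simp only [Finset.mem_insert, Finset.mem_singleton, true_or, true_and, not_or]
    constructor
    · intro h; exact h.2
    · intro h; refine ⟨?_, h⟩; rw [← hx]; exact hloop x
  have hbv : ∀ x, G.att x = G.att (G.inv d) →
      (x ∈ G.bdry ({G.att d, G.att (G.inv d)} : Finset V) ↔ G.att (G.inv x) ≠ G.att d) := by
    intro x hx
    rw [mem_bdry, hx]
    simp only [Finset.mem_insert, Finset.mem_singleton, or_true, true_and, not_or]
    constructor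
    · intro h; exact h.1
    · intro h; refine ⟨h, ?_⟩; rw [← hx]; exact hloop x
  rcases hc with ⟨h0, h0'⟩ | ⟨h0, h0'⟩
  · refine glue_set G hG _ f hf ε {d, G.inv d} ?_ ?_ ?_
    · intro x hx
      simp only [Finset.mem_insert, Finset.mem_singleton] at hx ⊢
      rcases hx with rfl | rfl
      · right; rfl
      · left; exact G.inv_inv d
    · intro x hx
      simp only [Finset.mem_insert, Finset.mem_singleton] at hx ⊢
      rcases hx with rfl | rfl
      · left; rfl
      · right; rfl
    · intro w hw
      left
      simp only [Finset.mem_insert, Finset.mem_singleton] at hw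
      rw [Finset.card_eq_zero] at h0 h0'
      rw [Finset.card_eq_one]
      rcases hw with rfl | rfl
      · refine ⟨d, ?_⟩
        ext x
        simp only [Finset.mem_filter, mem_darts, Finset.mem_insert, Finset.mem_singleton]
        constructor
        · rintro ⟨hx, (hx' | hx') | ⟨hx', hx''⟩⟩
          · exact hx'
          · rw [hx'] at hx; exact absurd hx huv
          · rw [hbu x hx] at hx'
            have : x ∈ ((G.darts (G.att d)).filter
                (fun x => G.att (G.inv x) ≠ G.att (G.inv d))).filter (fun x => f x = ε) := by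
              simp only [Finset.mem_filter, mem_darts]
              exact ⟨⟨hx, hx'⟩, hx''⟩
            rw [h0] at this
            simp at this
        · rintro rfl
          exact ⟨rfl, Or.inl (Or.inl rfl)⟩
      · refine ⟨G.inv d, ?_⟩
        ext x
        simp only [Finset.mem_filter, mem_darts, Finset.mem_insert, Finset.mem_singleton]
        constructor
        · rintro ⟨hx, (hx' | hx') | ⟨hx', hx''⟩⟩
          · rw [hx'] at hx; exact absurd hx.symm huv
          · exact hx'
          · rw [hbv x hx] at hx'
            have : x ∈ ((G.darts (G.att (G.inv d))).filter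
                (fun x => G.att (G.inv x) ≠ G.att d)).filter (fun x => f x = ε) := by
              simp only [Finset.mem_filter, mem_darts]
              exact ⟨⟨hx, hx'⟩, hx''⟩
            rw [h0'] at this
            simp at this
        · rintro rfl
          exact ⟨rfl, Or.inl (Or.inr rfl)⟩
  · refine glue_set G hG _ f hf ε ∅ ?_ ?_ ?_
    · intro x hx; simp at hx
    · intro x hx; simp at hx
    · intro w hw
      left
      simp only [Finset.mem_insert, Finset.mem_singleton] at hw
      rcases hw with rfl | rfl
      · rw [← h0]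
        congr 1
        ext x
        simp only [Finset.mem_filter, mem_darts, Finset.notMem_empty, false_or]
        constructor
        · rintro ⟨hx, hx', hx''⟩
          exact ⟨⟨hx, (hbu x hx).1 hx'⟩, hx''⟩
        · rintro ⟨⟨hx, hx'⟩, hx''⟩
          exact ⟨hx, (hbu x hx).2 hx', hx''⟩
      · rw [← h0']
        congr 1
        ext x
        simp only [Finset.mem_filter, mem_darts, Finset.notMem_empty, false_or]
        constructor
        · rintro ⟨hx, hx', hx''⟩
          exact ⟨⟨hx, (hbv x hx).1 hx'⟩, hx''⟩
        · rintro ⟨⟨hx, hx'⟩, hx''⟩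
          exact ⟨hx, (hbv x hx).2 hx', hx''⟩

theorem a7_core (G : DG V D) (hG : MinCex G) (hloop : ∀ d, G.att (G.inv d) ≠ G.att d) (d d' : D)
    (hne : d ≠ d') (h1 : G.att d = G.att d') (h2 : G.att (G.inv d) = G.att (G.inv d'))
    (hdeg : G.deg (G.att d) ≤ G.deg (G.att (G.inv d))) : False := by
  set K : Finset V := {G.att d, G.att (G.inv d)} with hKdef
  set Au := (G.darts (G.att d)).filter (fun x => G.att (G.inv x) ≠ G.att (G.inv d)) with hAu
  set Av := (G.darts (G.att (G.inv d))).filter (fun x => G.att (G.inv x) ≠ G.att d) with hAv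
  set Pu := (G.darts (G.att d)).filter (fun x => G.att (G.inv x) = G.att (G.inv d)) with hPu
  set Pv := (G.darts (G.att (G.inv d))).filter (fun x => G.att (G.inv x) = G.att d) with hPv
  have huv := hloop d
  have hPP : Pu.card = Pv.card := by
    apply Finset.card_bij (fun x _ => G.inv x)
    · intro x hx
      simp only [hPu, hPv, Finset.mem_filter, mem_darts] at hx ⊢
      rw [G.inv_inv]
      exact ⟨hx.2, hx.1⟩
    · intro x hx y hy hxy
      rw [← G.inv_inv x, ← G.inv_inv y, hxy]
    · intro y hy
      simp only [hPu, hPv, Finset.mem_filter, mem_darts] at hy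
      refine ⟨G.inv y, ?_, G.inv_inv y⟩
      simp only [hPu, Finset.mem_filter, mem_darts]
      rw [G.inv_inv]
      exact ⟨hy.2, hy.1⟩
  have hm : 2 ≤ Pu.card := by
    have hsub : ({d, d'} : Finset D) ⊆ Pu := by
      intro x hx
      simp only [Finset.mem_insert, Finset.mem_singleton] at hx
      simp only [hPu, Finset.mem_filter, mem_darts]
      rcases hx with rfl | rfl
      · exact ⟨rfl, rfl⟩
      · exact ⟨h1.symm, h2.symm⟩
    have := Finset.card_le_card hsub
    rwa [Finset.card_pair hne] at this
  have hdu : Pu.card + Au.card = G.deg (G.att d) :=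
    Finset.card_filter_add_card_filter_not _
  have hdv : Pv.card + Av.card = G.deg (G.att (G.inv d)) :=
    Finset.card_filter_add_card_filter_not _
  have hbd : ∀ x, x ∈ G.bdry K ↔ x ∈ Au ∨ x ∈ Av := by
    intro x
    rw [mem_bdry]
    simp only [hKdef, hAu, hAv, Finset.mem_filter, mem_darts, Finset.mem_insert,
      Finset.mem_singleton, not_or]
    constructor
    · rintro ⟨hx | hx, hx1, hx2⟩
      · left; exact ⟨hx, hx2⟩
      · right; exact ⟨hx, hx1⟩
    · rintro (⟨hx, hx1⟩ | ⟨hx, hx1⟩)
      · refine ⟨Or.inl hx, ?_, hx1⟩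
        rw [← hx]; exact hloop x
      · refine ⟨Or.inr hx, hx1, ?_⟩
        rw [← hx]; exact hloop x
  have hdis : Disjoint Au Av := by
    rw [Finset.disjoint_left]
    intro x hx hx'
    simp only [hAu, hAv, Finset.mem_filter, mem_darts] at hx hx'
    rw [hx.1] at hx'
    exact huv hx'.1.symm
  have hKpos : 0 < (G.dartsOn K).card := by
    apply Finset.card_pos.2
    refine ⟨d, ?_⟩
    simp [DG.dartsOn, hKdef]
  have hdu' := hG.deg135 (G.att d)
  have hdv' := hG.deg135 (G.att (G.inv d))
  have hcase : (Au.card = Av.card ∧ Au.card ≤ 3) ∨ (Av.card = Au.card + 2 ∧ Au.card ≤ 1) := by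
    omega
  rcases hcase with ⟨hc, hc3⟩ | ⟨hc, hc1⟩
  · obtain ⟨τ, hτ1, hτ2⟩ := exists_tau Au Av hdis hc
    obtain ⟨f, hf, hfτ⟩ := gadget0 G hG K hKpos τ (by
      intro b hb
      rw [hbd] at hb
      rcases hb with hb | hb
      · refine ⟨?_, (hτ1 b hb).2, ?_⟩
        · rw [hbd]; right; exact (hτ1 b hb).1
        · intro hh
          have := (hτ1 b hb).1
          rw [hh] at this
          exact Finset.disjoint_left.1 hdis hb this
      · refine ⟨?_, (hτ2 b hb).2, ?_⟩
        · rw [hbd]; left; exact (hτ2 b hb).1
        · intro hh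
          have := (hτ2 b hb).1
          rw [hh] at this
          exact Finset.disjoint_left.1 hdis this hb)
    have heq : ∀ ε : Bool, (Au.filter (fun x => f x = ε)).card = (Av.filter (fun x => f x = ε)).card := by
      intro ε
      apply Finset.card_bij (fun x _ => τ x)
      · intro x hx
        rw [Finset.mem_filter] at hx ⊢
        refine ⟨(hτ1 x hx.1).1, ?_⟩
        rw [hfτ x (by rw [hbd]; left; exact hx.1)]
        exact hx.2
      · intro x hx y hy hxy
        rw [Finset.mem_filter] at hx hy
        rw [← (hτ1 x hx.1).2, ← (hτ1 y hy.1).2, hxy]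
      · intro y hy
        rw [Finset.mem_filter] at hy
        refine ⟨τ y, ?_, (hτ2 y hy.1).2⟩
        rw [Finset.mem_filter]
        refine ⟨(hτ2 y hy.1).1, ?_⟩
        rw [hfτ y (by rw [hbd]; right; exact hy.1)]
        exact hy.2
    have hsum : (Au.filter (fun x => f x = true)).card + (Au.filter (fun x => f x = false)).card =
        Au.card := by
      have := Finset.card_filter_add_card_filter_not (s := Au) (fun x => f x = true)
      rw [← this]
      congr 2
      apply Finset.filter_congr
      intro x _
      simp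
    have : ∃ ε : Bool, (Au.filter (fun x => f x = ε)).card ≤ 1 := by
      by_cases h : (Au.filter (fun x => f x = true)).card ≤ 1
      · exact ⟨true, h⟩
      · refine ⟨false, ?_⟩
        omega
    obtain ⟨ε, hε⟩ := this
    apply a7_finish G hG hloop d f hf ε
    have h3 := heq ε
    rw [← hAu, ← hAv]
    omega
  · -- pick two darts of Av
    have h2lt : 1 < Av.card := by omega
    obtain ⟨c, hcm, e, hem, hce⟩ := Finset.one_lt_card.1 h2lt
    set B := (Av.erase c).erase e with hB
    have heB : e ∈ Av.erase c := Finset.mem_erase.2 ⟨hce.symm, hem⟩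
    have hBc : Au.card = B.card := by
      rw [hB, Finset.card_erase_of_mem heB, Finset.card_erase_of_mem hcm]
      omega
    have hBsub : ∀ x ∈ B, x ∈ Av ∧ x ≠ c ∧ x ≠ e := by
      intro x hx
      rw [hB, Finset.mem_erase, Finset.mem_erase] at hx
      exact ⟨hx.2.2, hx.2.1, hx.1⟩
    have hBor : ∀ x ∈ Av, x ∈ B ∨ x = c ∨ x = e := by
      intro x hx
      by_cases h : x = c
      · right; left; exact h
      · by_cases h' : x = e
        · right; right; exact h'
        · left; rw [hB, Finset.mem_erase, Finset.mem_erase]; exact ⟨h', h, hx⟩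
    have hdisB : Disjoint Au B := by
      rw [Finset.disjoint_left]
      intro x hx hx'
      exact Finset.disjoint_left.1 hdis hx (hBsub x hx').1
    obtain ⟨τ, hτ1, hτ2⟩ := exists_tau Au B hdisB hBc
    have hcA : c ∉ Au := fun h => Finset.disjoint_left.1 hdis h hcm
    have heA : e ∉ Au := fun h => Finset.disjoint_left.1 hdis h hem
    let σ : D → D := fun x => if x = c then e else if x = e then c else τ x
    have hσc : σ c = e := by simp [σ]
    have hσe : σ e = c := by simp [σ, hce.symm]
    have hσ : ∀ x, x ≠ c → x ≠ e → σ x = τ x := by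
      intro x h h'; simp [σ, h, h']
    have hσA : ∀ x ∈ Au, σ x ∈ B ∧ σ (σ x) = x := by
      intro x hx
      have hxc : x ≠ c := fun h => hcA (h ▸ hx)
      have hxe : x ≠ e := fun h => heA (h ▸ hx)
      rw [hσ x hxc hxe]
      have h3 := hBsub _ (hτ1 x hx).1
      rw [hσ _ h3.2.1 h3.2.2]
      exact hτ1 x hx
    have hσB : ∀ x ∈ B, σ x ∈ Au ∧ σ (σ x) = x := by
      intro x hx
      have h3 := hBsub _ hx
      rw [hσ x h3.2.1 h3.2.2]
      have h4 := (hτ2 x hx).1
      have hxc : τ x ≠ c := fun h => hcA (h ▸ h4)
      have hxe : τ x ≠ e := fun h => heA (h ▸ h4)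
      rw [hσ _ hxc hxe]
      exact hτ2 x hx
    obtain ⟨f, hf, hfτ⟩ := gadget0 G hG K hKpos σ (by
      intro b hb
      rw [hbd] at hb
      rcases hb with hb | hb
      · refine ⟨?_, (hσA b hb).2, ?_⟩
        · rw [hbd]; right; exact (hBsub _ (hσA b hb).1).1
        · intro hh
          have := (hσA b hb).1
          rw [hh] at this
          exact Finset.disjoint_left.1 hdisB hb this
      · rcases hBor b hb with hb' | rfl | rfl
        · refine ⟨?_, (hσB b hb').2, ?_⟩
          · rw [hbd]; left; exact (hσB b hb').1
          · intro hh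
            have := (hσB b hb').1
            rw [hh] at this
            exact Finset.disjoint_left.1 hdisB this hb'
        · rw [hσc, hσe]
          exact ⟨by rw [hbd]; right; exact hem, rfl, hce.symm⟩
        · rw [hσe, hσc]
          exact ⟨by rw [hbd]; right; exact hcm, rfl, hce⟩)
    have hfce : f e = f c := by
      have := hfτ c (by rw [hbd]; right; exact hcm)
      rwa [hσc] at this
    have heq : (Au.filter (fun x => f x = !(f c))).card = (Av.filter (fun x => f x = !(f c))).card := by
      apply Finset.card_bij (fun x _ => σ x)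
      · intro x hx
        rw [Finset.mem_filter] at hx ⊢
        refine ⟨(hBsub _ (hσA x hx.1).1).1, ?_⟩
        rw [hfτ x (by rw [hbd]; left; exact hx.1)]
        exact hx.2
      · intro x hx y hy hxy
        rw [Finset.mem_filter] at hx hy
        rw [← (hσA x hx.1).2, ← (hσA y hy.1).2, hxy]
      · intro y hy
        rw [Finset.mem_filter] at hy
        have hyB : y ∈ B := by
          rcases hBor y hy.1 with h | rfl | rfl
          · exact h
          · exfalso
            have := hy.2
            cases hh : f y <;> simp [hh] at this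
          · exfalso
            have := hy.2
            rw [hfce] at this
            cases hh : f c <;> simp [hh] at this
        refine ⟨σ y, ?_, (hσB y hyB).2⟩
        rw [Finset.mem_filter]
        refine ⟨(hσB y hyB).1, ?_⟩
        rw [hfτ y (by rw [hbd]; right; exact hy.1)]
        exact hy.2
    have hle : (Au.filter (fun x => f x = !(f c))).card ≤ Au.card :=
      Finset.card_le_card (Finset.filter_subset _ _)
    apply a7_finish G hG hloop d f hf (!(f c))
    rw [← hAu, ← hAv]
    omega

end

/-- A7 : no parallel edges. -/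
theorem a7 (hA3 : StmtA3) : StmtA7 := by
  intro V D _ _ G hG d d' h1 h2
  by_contra hne
  have hloop := hA3 V D G hG
  rcases le_total (G.deg (G.att d)) (G.deg (G.att (G.inv d))) with h | h
  · exact a7_core G hG hloop d d' hne h1 h2 h
  · apply a7_core G hG hloop (G.inv d) (G.inv d')
    · intro hh
      apply hne
      rw [← G.inv_inv d, ← G.inv_inv d', hh]
    · exact h2
    · rw [G.inv_inv, G.inv_inv]; exact h1
    · rw [G.inv_inv]; exact h

end Pool.Agent.H27.F14
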