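import Pool.Agent.H32.F14.Base

/-! # Part Fz : the frozen statement from StmtMain -/

set_option autoImplicit false
set_option linter.unusedSectionVars false
set_option linter.unusedVariables false

noncomputable section

namespace Pool.Agent.H27.F14

open Pool.Agent.H32.F14

theorem solvable_of_main (hM : StmtMain) : ∀ (n : ℕ) (V D : Type) [Fintype V] [Fintype D]
    (G : DG V D), Fintype.card D = n → G.Odd135 → G.Solvable := by
  intro n
  induction n using Nat.strong_induction_on with
  | _ n ih =>
    intro V D _ _ G hn hG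
    by_contra hs
    apply hM V D G
    refine ⟨hG, hs, ?_⟩
    intro V' D' _ _ G' hG' hlt
    exact ih (Fintype.card D') (by omega) V' D' G' rfl hG'

/-- the dart graph of a simple graph -/
def ofSimple {V : Type} (G : SimpleGraph V) : DG V G.Dart where
  att := fun d => d.fst
  inv := fun d => d.symm
  inv_inv := fun d => d.symm_symm
  inv_ne := fun d => d.symm_ne

theorem frozen_of_main (hM : StmtMain) :
    ∀ (V : Type) [Fintype V] [DecidableEq V] (G : SimpleGraph V) [DecidableRel G.Adj],
      G.IsRegularOfDegree 5 →
        ∃ H : SimpleGraph V, H ≤ G ∧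
          ∀ v : V, (H.neighborSet v).ncard = 1 ∨ (H.neighborSet v).ncard = 4 := by
  intro V _ _ G _ hG
  have hdeg : ∀ v, (ofSimple G).deg v = 5 := by
    intro v
    have h1 := G.dart_fst_fiber_card_eq_degree v
    rw [hG v] at h1
    rw [← h1]
    unfold DG.deg
    apply Finset.card_bij (fun d _ => d)
    · intro d hd
      exact Finset.mem_filter.2 ⟨Finset.mem_univ _, (mem_darts (ofSimple G) v d).1 hd⟩
    · intro d _ d' _ h
      exact h
    · intro d hd
      exact ⟨d, (mem_darts (ofSimple G) v d).2 (Finset.mem_filter.1 hd).2, rfl⟩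
  obtain ⟨f, hf1, hf2⟩ := solvable_of_main hM _ V G.Dart (ofSimple G) rfl
    (fun v => Or.inr (Or.inr (hdeg v)))
  let H : SimpleGraph V := {
    Adj := fun u v => ∃ h : G.Adj u v, f ⟨(u, v), h⟩ = true
    symm := ⟨by
      intro u v ⟨h, hh⟩
      refine ⟨h.symm, ?_⟩
      have := hf1 ⟨(u, v), h⟩
      rw [hh] at this
      exact this⟩
    loopless := ⟨by
      intro u ⟨h, _⟩
      exact G.loopless.irrefl u h⟩ }
  refine ⟨H, ?_, ?_⟩
  · intro u v ⟨h, _⟩
    exact h
  · intro v
    have hset : H.neighborSet v =
        ((((ofSimple G).darts v).filter (fun d => f d = true)).image (fun d : G.Dart => d.snd) :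
          Finset V) := by
      ext w
      simp only [SimpleGraph.mem_neighborSet, Finset.coe_image, Finset.coe_filter, Set.mem_image,
        Set.mem_ofPred_eq, mem_darts]
      constructor
      · rintro ⟨h, hh⟩
        exact ⟨⟨(v, w), h⟩, ⟨rfl, hh⟩, rfl⟩
      · rintro ⟨d, ⟨hd1, hd2⟩, rfl⟩
        obtain ⟨⟨a, b⟩, hab⟩ := d
        have : a = v := hd1
        subst this
        exact ⟨hab, hd2⟩
    have hcard : (H.neighborSet v).ncard = (ofSimple G).ones f v := by
      rw [hset, Set.ncard_coe_finset]
      unfold DG.ones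
      rw [Finset.card_image_of_injOn]
      · intro d hd d' hd' h
        simp only [Finset.coe_filter, Set.mem_ofPred_eq, mem_darts] at hd hd'
        obtain ⟨⟨a, b⟩, hab⟩ := d
        obtain ⟨⟨a', b'⟩, hab'⟩ := d'
        have h1 : a = v := hd.1
        have h2 : a' = v := hd'.1
        have h3 : b = b' := h
        subst h1
        subst h3
        subst h2
        rfl
    rw [hcard]
    have := hf2 v
    unfold DG.OkAt at this
    rw [hdeg v] at this
    omega

end Pool.Agent.H27.F14
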